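import Pool.Agent.H7.DG.G11

set_option autoImplicit false

/-!
# `H^p` norms of divisor-weighted Dirichlet polynomials: all exponents `γ ≤ 0`, all `0 < p ≤ 1`

For `γ ≤ 0` and `0 < p ≤ 1` the norm `‖D_{N,γ}‖_{H^p}`, `D_{N,γ}(s) = ∑_{n ≤ N} d(n)^γ n^{-1/2-s}`,
is of the exact order `(log N)^{4^γ p / 4}`. The same proof gives the order of the norms for all
multiplicative coefficients `a(n) n^{-1/2}` with `a(q^m) = g(m)`, `g` nonincreasing.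
-/

namespace Pool.Agent.Results.MP_d91868_an.NegativeExponents

open Filter
open scoped Topology

/-- the Dirichlet polynomial `D_{N,γ}(s) = ∑_{n ≤ N} d(n)^γ n^{-1/2-s}` -/
noncomputable def D (γ : ℝ) (N : ℕ) (s : ℂ) : ℂ :=
  ∑ n ∈ Finset.Icc 1 N, (((n.divisors.card : ℝ) ^ γ : ℝ) : ℂ) * (n : ℂ) ^ (-(1 / 2 : ℂ) - s)

/-- the multiplicative function with value `g m` at `q ^ m` for all primes `q` -/
noncomputable def mult (g : ℕ → ℝ) (n : ℕ) : ℝ := ∏ q ∈ n.primeFactors, g (n.factorization q)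

/-- the Dirichlet polynomial with coefficients `mult g n * n^{-1/2}` -/
noncomputable def DG (g : ℕ → ℝ) (N : ℕ) (s : ℂ) : ℂ :=
  ∑ n ∈ Finset.Icc 1 N, ((mult g n : ℝ) : ℂ) * (n : ℂ) ^ (-(1 / 2 : ℂ) - s)

/-- `x` is the `H^p` norm of the Dirichlet polynomial `F`: `x ≥ 0` and
`x ^ p = lim_{T → ∞} (2T)⁻¹ ∫_{-T}^{T} |F(iy)|^p dy` -/
def IsHpNorm (p : ℝ) (F : ℂ → ℂ) (x : ℝ) : Prop :=
  0 ≤ x ∧ Tendsto (fun T : ℝ => (2 * T)⁻¹ * ∫ y in (-T)..T, ‖F (y * Complex.I)‖ ^ p) atTop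
    (𝓝 (x ^ p))

/-- the `H^p` norms of the polynomials `F N` are of the exact order `(log N) ^ e` -/
def NormOrder (p : ℝ) (F : ℕ → ℂ → ℂ) (e : ℝ) : Prop :=
  ∃ c C : ℝ, 0 < c ∧ 0 < C ∧ ∀ N : ℕ, 2 ≤ N → ∃ x : ℝ, IsHpNorm p (F N) x ∧
    c * Real.log N ^ e ≤ x ∧ x ≤ C * Real.log N ^ e

open Pool.Agent.H7.DG Pool.Agent.H7.PL

theorem general (g : ℕ → ℝ) (p : ℝ) (hg0 : g 0 = 1) (hg1 : 0 < g 1) (hnn : ∀ m, 0 ≤ g m)
    (hanti : Antitone g) (hp : 0 < p) (hp1 : p ≤ 1) :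
    NormOrder p (DG g) (g 1 ^ 2 * p / 4) := by
  let _ : LF := ⟨g, hg0, hg1, hnn, hanti⟩
  obtain ⟨c, hc, hlo⟩ := SN_lower_all hp hp1
  obtain ⟨C, hC, hup⟩ := SN_upper_all hp hp1
  refine ⟨c ^ (1 / p), C ^ (1 / p), Real.rpow_pos_of_pos hc _, Real.rpow_pos_of_pos hC _,
    fun N hN => ?_⟩
  have hl : 0 ≤ Real.log N := Real.log_nonneg (by exact_mod_cast (by omega : 1 ≤ N))
  have hm : 0 ≤ mo p (SN N) := mo_nonneg p _
  have hD : DG g N = DN N := rfl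
  have hq : qe p = g 1 ^ 2 * p / 4 * p := by
    unfold qe
    show (p * g 1 / 2) ^ 2 = _
    ring
  have hpw : (Real.log N ^ qe p) ^ (1 / p) = Real.log N ^ (g 1 ^ 2 * p / 4) := by
    rw [← Real.rpow_mul hl, hq]
    congr 1
    field_simp
  have hL0 : 0 ≤ Real.log N ^ qe p := Real.rpow_nonneg hl _
  have hp' : 0 ≤ 1 / p := by positivity
  refine ⟨mo p (SN N) ^ (1 / p), ⟨Real.rpow_nonneg hm _, ?_⟩, ?_, ?_⟩
  · rw [← Real.rpow_mul hm, one_div_mul_cancel hp.ne', Real.rpow_one, hD]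
    exact mean_DN hp N
  · have h := Real.rpow_le_rpow (by positivity) (hlo N hN) hp'
    rwa [Real.mul_rpow hc.le hL0, hpw] at h
  · have h := Real.rpow_le_rpow hm (hup N hN) hp'
    rwa [Real.mul_rpow hC.le hL0, hpw] at h

theorem result :
    (∀ γ p : ℝ, γ ≤ 0 → 0 < p → p ≤ 1 → NormOrder p (D γ) ((4 : ℝ) ^ γ * p / 4)) ∧
    (∀ (g : ℕ → ℝ) (p : ℝ), g 0 = 1 → 0 < g 1 → (∀ m, 0 ≤ g m) → Antitone g → 0 < p → p ≤ 1 →
      NormOrder p (DG g) (g 1 ^ 2 * p / 4)) := by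
  refine ⟨fun γ p hγ hp hp1 => ?_, fun g p h0 h1 h2 h3 h4 h5 => general g p h0 h1 h2 h3 h4 h5⟩
  have h := general (fun m => ((m : ℝ) + 1) ^ γ) p (by simp) (by positivity)
    (fun m => by positivity) (fun a b hab => Real.rpow_le_rpow_of_nonpos (by positivity)
    (by have : (a : ℝ) ≤ b := by exact_mod_cast hab
        linarith) hγ) hp hp1
  have h1 : (((1 : ℕ) : ℝ) + 1) ^ γ = (2 : ℝ) ^ γ := by norm_num
  have h2 : (4 : ℝ) ^ γ = ((2 : ℝ) ^ γ) ^ 2 := by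
    rw [← Real.rpow_natCast, ← Real.rpow_mul (by norm_num), mul_comm γ, Real.rpow_mul (by norm_num)]
    norm_num
  have hD : D γ = DG fun m => ((m : ℝ) + 1) ^ γ := by
    funext N s
    unfold D DG
    refine Finset.sum_congr rfl fun n hn => ?_
    have hn0 : n ≠ 0 := by have := (Finset.mem_Icc.1 hn).1; omega
    have : mult (fun m => ((m : ℝ) + 1) ^ γ) n = (n.divisors.card : ℝ) ^ γ := by
      rw [← ag_LFd γ hγ hn0]
      rfl
    rw [this]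
  rw [h2, hD]
  simpa only [h1] using h

end Pool.Agent.Results.MP_d91868_an.NegativeExponents
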